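import Pool.Agent.Helper3.FC.Goals

/-!
# Project FC, packet FC-SEQ: summation by parts.
-/

set_option autoImplicit false

namespace Pool.Agent.Helper66.FC.SEQ

open Pool.Agent.Helper3.FC

theorem mix_mem (η : ℝ) (L : ℕ) (y : ℕ → ℝ) (h0 : 0 < η) (h1 : η ≤ 1)
    (hy : ∀ j < L, 0 ≤ y j ∧ y j ≤ 1) : ∀ j ≤ L, 0 ≤ mix η y j ∧ mix η y j ≤ 1 := by
  intro j
  induction j with
  | zero =>
    intro _
    simp [mix]
  | succ j ih =>
    intro hj
    obtain ⟨h2, h3⟩ := ih (by omega)
    obtain ⟨h4, h5⟩ := hy j (by omega)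
    simp only [mix]
    constructor
    · exact add_nonneg (mul_nonneg (by linarith) h2) (mul_nonneg h0.le h4)
    · nlinarith [mul_le_mul_of_nonneg_left h3 (by linarith : (0:ℝ) ≤ 1 - η),
        mul_le_mul_of_nonneg_left h5 h0.le]

theorem t : SEQStmt := by
  intro η c L y h0 h1 hc hy
  have hM := mix_mem η L y h0 h1 hy
  have key : ∀ n ≤ L, η * ∑ j ∈ Finset.range n, y j * (c - mix η y j) ≤
      η * c * (c * n - ∑ j ∈ Finset.range n, y j) + 2 * c * mix η y n +
        η ^ 2 * ∑ j ∈ Finset.range n, y j - η / 2 * mix η y n - mix η y n ^ 2 / 2 := by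
    intro n
    induction n with
    | zero =>
      intro _
      simp [mix]
    | succ n ih =>
      intro hn
      have ih' := ih (by omega)
      obtain ⟨h2, h3⟩ := hM n (by omega)
      obtain ⟨h4, h5⟩ := hy n (by omega)
      rw [Finset.sum_range_succ, Finset.sum_range_succ]
      have hm : mix η y (n + 1) = (1 - η) * mix η y n + η * y n := rfl
      rw [hm]
      push_cast
      generalize mix η y n = M at *
      generalize y n = Y at *
      generalize ∑ j ∈ Finset.range n, y j * (c - mix η y j) = A at *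
      generalize ∑ j ∈ Finset.range n, y j = S at *
      have h6 : 0 ≤ η * (c - M) ^ 2 := mul_nonneg h0.le (sq_nonneg _)
      have h7 : (Y - M) ^ 2 ≤ Y + M := by nlinarith [mul_nonneg h4 h2]
      have h8 : 0 ≤ η ^ 2 / 2 * (Y + M - (Y - M) ^ 2) :=
        mul_nonneg (by positivity) (by linarith)
      nlinarith [ih', h6, h8]
  obtain ⟨h2, h3⟩ := hM L le_rfl
  have k := key L le_rfl
  have hS : η * ∑ j ∈ Finset.range L, y j * (c - mix η y j) ≤
      η * (c * (c * L - ∑ j ∈ Finset.range L, y j) + 2 * c / η +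
        η * ∑ j ∈ Finset.range L, y j) := by
    have h4 : η * (2 * c / η) = 2 * c := by field_simp
    have h5 : 2 * c * mix η y L ≤ 2 * c := by nlinarith
    have h6 : 0 ≤ η / 2 * mix η y L := by positivity
    have h7 : 0 ≤ mix η y L ^ 2 / 2 := by positivity
    calc _ ≤ _ := k
      _ ≤ η * c * (c * L - ∑ j ∈ Finset.range L, y j) + 2 * c +
        η ^ 2 * ∑ j ∈ Finset.range L, y j := by linarith
      _ = _ := by rw [mul_add, mul_add, h4]; ring
  exact le_of_mul_le_mul_left hS h0

end Pool.Agent.Helper66.FC.SEQ
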